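import Pool.Agent.H53.NvK

/-! Threshold for property (V) of differential monomials in the unit disc. -/

namespace Pool.Agent.Results.MP_4b24a5_an.Analytic

open Metric Filter Set Topology Real MeasureTheory Pool.Agent.H53.Nv Pool.Agent.H53.NvK
open scoped ENNReal

theorem result (k : ℕ) (m : ℕ → ℕ) (f : ℂ → ℂ) (hα : alphaD f ≠ ⊤) (hm : 2 ≤ m 0)
    (hf' : AnalyticOnNhd ℂ f (ball 0 1))
    (hl : ENNReal.ofReal ((1 + (m 0 - 1) * wt k m / deg k m) / (m 0 - 1)) < alphaD f) :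
    PropV k m f := by
  have hmn : (m 0 : ℝ) ≤ deg k m :=
    Finset.single_le_sum (f := fun j => (m j : ℝ)) (fun _ _ => Nat.cast_nonneg _)
      (Finset.mem_range.2 (Nat.succ_pos k))
  have hpos : ∀ {x : ℝ}, ENNReal.ofReal x < alphaD f → ¬ Bd (charT f) 0 := fun h h0 => by
    have := alpha_le h0
    rw [ENNReal.ofReal_zero] at this
    exact absurd (h.trans_le this) (by simp)
  intro w hw hW
  have hf : MeromorphicOn f (ball 0 1) := hf'.meromorphicOn
  have hm3 : (2:ℝ) ≤ m 0 := by exact_mod_cast hm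
  have hd : 0 < deg k m := by linarith
  have h2 : (0:ℝ) < m 0 - 1 := by linarith
  obtain ⟨C₁, hC₁⟩ := barN_le hf
  obtain ⟨C₂, hC₂⟩ := cnt_fin hf ∅ fun u hu _ => (hf' u hu).meromorphicOrderAt_nonneg
  have h := (key hf (bd_alpha hα) (by omega) (hpos hl) hw hW).smul
    (a := (deg k m * (m 0 - 1))⁻¹) (by positivity)
  have e : (deg k m * (m 0 - 1))⁻¹ * ((m 0 - 1) * wt k m + deg k m)
      = (1 + (m 0 - 1) * wt k m / deg k m) / (m 0 - 1) := by field_simp; ring
  rw [e] at h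
  refine absurd (alpha_le (h.mono ((C₁ + C₂) / (m 0 - 1)) fun r h1 h3 => ?_)) (not_le.2 hl)
  have q1 := hC₁ r h1 h3
  have q2 := hC₂ r h1 h3
  have e2 : (deg k m * (m 0 - 1))⁻¹ * (deg k m * (m 0 - 1) * charT f r - deg k m * barN f r)
      + (C₁ + C₂) / (m 0 - 1) = ((m 0 - 1) * charT f r - barN f r + (C₁ + C₂)) / (m 0 - 1) := by
    field_simp
  rw [e2, le_div_iff₀ h2]
  linarith

end Pool.Agent.Results.MP_4b24a5_an.Analytic
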